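import Pool.Agent.H5.EG.Spec2

/-!
# MP_98cfca_co, Q1: `S_fourier`
-/

set_option autoImplicit false

namespace Pool.Agent.H597.EG

open PowerSeries Metric Real
open Pool.Agent.H5.EG

theorem ev_zero (h : PowerSeries ℂ) : ev h 0 = PowerSeries.coeff 0 h := by
  rw [ev, tsum_eq_single 0]
  · rw [pow_zero, mul_one]
  · intro n hn
    rw [zero_pow hn, mul_zero]

theorem dcc {h : PowerSeries ℂ} (hh : Rad h) {ρ : ℝ} (h1 : ρ < 1) :
    DiffContOnCl ℂ (ev h) (ball 0 ρ) :=
  (ev_analytic hh).differentiableOn.diffContOnCl_ball (closedBall_subset_ball h1)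

theorem contOn {h : PowerSeries ℂ} (hh : Rad h) {ρ : ℝ} (h1 : ρ < 1) :
    ContinuousOn (ev h) (sphere 0 ρ) :=
  (ev_analytic hh).continuousOn.mono
    (sphere_subset_closedBall.trans (closedBall_subset_ball h1))

/-- the coefficients as means -/
theorem coeff_eq {h : PowerSeries ℂ} (hh : Rad h) {ρ : ℝ} (h0 : 0 < ρ) (h1 : ρ < 1) (n : ℕ) :
    circleAverage (fun x => ((ρ : ℂ) / x) ^ n * ev h x) 0 ρ =
      PowerSeries.coeff n h * (ρ : ℂ) ^ n := by
  have hs1 : HasFPowerSeriesAt (ev h) (FormalMultilinearSeries.ofScalars ℂ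
      (fun n => PowerSeries.coeff n h)) 0 := (hasFPowerSeries hh).hasFPowerSeriesAt
  have hρ : ((⟨ρ, h0.le⟩ : NNReal) : ℝ) = ρ := rfl
  have hs2 : HasFPowerSeriesAt (ev h) (cauchyPowerSeries (ev h) 0 ρ) 0 :=
    (DiffContOnCl.hasFPowerSeriesOnBall (R := ⟨ρ, h0.le⟩) (dcc hh h1) h0).hasFPowerSeriesAt
  have he := hs1.eq_formalMultilinearSeries hs2
  have h3 := cauchyPowerSeries_apply (ev h) 0 ρ n (ρ : ℂ)
  rw [← he, FormalMultilinearSeries.ofScalars_apply_eq, smul_eq_mul] at h3
  rw [h3, circleAverage_eq_circleIntegral h0.ne']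
  congr 1
  refine congrArg (fun g => circleIntegral g 0 ρ) ?_
  funext z
  rw [sub_zero, smul_eq_mul, smul_eq_mul, smul_eq_mul]
  ring

theorem mean_zero {h : PowerSeries ℂ} (hh : Rad h) {ρ : ℝ} (h0 : 0 < ρ) (h1 : ρ < 1) {n : ℕ}
    (hn : 1 ≤ n) : circleAverage (fun x => (x / (ρ : ℂ)) ^ n * ev h x) 0 ρ = 0 := by
  have hd : DiffContOnCl ℂ (fun x => (x / (ρ : ℂ)) ^ n * ev h x) (ball 0 |ρ|) := by
    rw [abs_of_pos h0]
    refine DifferentiableOn.diffContOnCl_ball (U := ball 0 1) ?_ (closedBall_subset_ball h1)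
    refine DifferentiableOn.mul ?_ (ev_analytic hh).differentiableOn
    fun_prop
  rw [hd.circleAverage]
  rw [zero_div, zero_pow (by omega), zero_mul]

theorem fourier : S_fourier := by
  intro h ρ hh h0 h1
  have hcont := contOn hh h1
  have hint : CircleIntegrable (ev h) 0 ρ := hcont.circleIntegrable h0.le
  refine ⟨fun n hn => ?_, ?_⟩
  · have hne : ∀ x ∈ sphere (0 : ℂ) ρ, x ≠ 0 := by
      rintro x hx rfl
      rw [mem_sphere, dist_self] at hx
      exact h0.ne hx
    have hc1 : ContinuousOn (fun x => ((ρ : ℂ) / x) ^ n * ev h x) (sphere 0 ρ) :=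
      ((continuousOn_const.div continuousOn_id hne).pow n).mul hcont
    have hc2 : ContinuousOn (fun x => (x / (ρ : ℂ)) ^ n * ev h x) (sphere 0 ρ) :=
      ((continuousOn_id.div_const _).pow n).mul hcont
    have hi1 := hc1.circleIntegrable h0.le
    have hi2 := hc2.circleIntegrable h0.le
    have e1 := coeff_eq hh h0 h1 n
    have e2 := mean_zero hh h0 h1 hn
    have e3 := Complex.conjCLE.toContinuousLinearMap.circleAverage_comp_comm hi2
    rw [e2, map_zero] at e3
    have hc3 : ContinuousOn (Complex.conjCLE.toContinuousLinearMap ∘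
        fun x => (x / (ρ : ℂ)) ^ n * ev h x) (sphere 0 ρ) :=
      Complex.conjCLE.continuous.comp_continuousOn hc2
    have hi3 := hc3.circleIntegrable h0.le
    have e4 := circleAverage_add hi1 hi3
    rw [e1, e3, add_zero] at e4
    have e5 : circleAverage ((fun x => ((ρ : ℂ) / x) ^ n * ev h x) +
        (Complex.conjCLE.toContinuousLinearMap ∘ fun x => (x / (ρ : ℂ)) ^ n * ev h x)) 0 ρ =
        circleAverage (fun x => ((ρ : ℂ) / x) ^ n * (2 * ((ev h x).re : ℂ))) 0 ρ := by
      refine circleAverage_congr_sphere fun x hx => ?_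
      rw [abs_of_pos h0] at hx
      have hx0 := hne x hx
      have hρ0 : (ρ : ℂ) ≠ 0 := Complex.ofReal_ne_zero.2 h0.ne'
      have hxn : x * (starRingEnd ℂ) x = (ρ : ℂ) * ρ := by
        rw [Complex.mul_conj, Complex.normSq_eq_norm_sq]
        have : ‖x‖ = ρ := by rwa [mem_sphere, dist_zero_right] at hx
        rw [this]
        push_cast
        ring
      have e6 : (starRingEnd ℂ) x / (ρ : ℂ) = (ρ : ℂ) / x := by
        rw [div_eq_div_iff hρ0 hx0, mul_comm, hxn]
      change ((ρ : ℂ) / x) ^ n * ev h x + (starRingEnd ℂ) ((x / (ρ : ℂ)) ^ n * ev h x) = _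
      rw [map_mul, map_pow, map_div₀, Complex.conj_ofReal, e6, ← mul_add, Complex.add_conj]
      push_cast
      rfl
    rw [e5] at e4
    have e7 : ‖PowerSeries.coeff n h‖ * ρ ^ n = ‖PowerSeries.coeff n h * (ρ : ℂ) ^ n‖ := by
      rw [norm_mul, norm_pow, Complex.norm_real, Real.norm_of_nonneg h0.le]
    rw [e7, ← e4, circleAverage_def, circleAverage_def, norm_smul, smul_eq_mul]
    have hpi : (0 : ℝ) ≤ (2 * π)⁻¹ := by positivity
    rw [Real.norm_of_nonneg hpi, mul_left_comm]
    refine mul_le_mul_of_nonneg_left ?_ hpi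
    rw [← intervalIntegral.integral_const_mul]
    refine (intervalIntegral.norm_integral_le_integral_norm (by positivity)).trans (le_of_eq ?_)
    refine congrArg (fun g => intervalIntegral g 0 (2 * π) MeasureTheory.volume) ?_
    funext θ
    have hn1 : ‖(ρ : ℂ) / circleMap 0 ρ θ‖ = 1 := by
      rw [norm_div, Complex.norm_real, norm_circleMap_zero, Real.norm_eq_abs,
        div_self (abs_pos.2 h0.ne').ne']
    rw [norm_mul, norm_pow, hn1, one_pow, one_mul, norm_mul, Complex.norm_two, Complex.norm_real,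
      Real.norm_eq_abs]
  · have e1 := Complex.reCLM.circleAverage_comp_comm hint
    have hd : DiffContOnCl ℂ (ev h) (ball 0 |ρ|) := by
      rw [abs_of_pos h0]
      exact dcc hh h1
    rw [hd.circleAverage, ev_zero] at e1
    exact e1

end Pool.Agent.H597.EG
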